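import Pool.Agent.Work.MP_59976d_co_even.Interface
import Pool.Agent.Work.MP_59976d_co_odd.LV

/-!
# Block LvZ: level lemma over an even base, the exceptional type
-/

namespace Pool.Agent.Work.MP_59976d_co

open Finset
open scoped Pointwise

universe u

namespace LvZ

/-- One cell, abstractly. -/
lemma acell {Q : Type u} [AddCommGroup Q] [Finite Q] [DecidableEq Q]
    (hS : Stmt_Scherk.{u}) (hQ : RestrictedScherk Q)
    {X Y T : Finset Q} (hadm : Adm X Y)
    (hT : ∀ u ∈ X, ∀ v ∈ Y, u ≠ v → u + v ∈ T) (e : ℕ)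
    (he : (∃ u, u ∈ X ∧ u ∈ Y ∧ u ≠ 0 ∧ u + u ∉ T) → 1 ≤ e) :
    X.card + Y.card ≤ T.card + 2 + e := by
  by_cases hloss : ∃ u, u ∈ X ∧ u ∈ Y ∧ u ≠ 0 ∧ u + u ∉ T
  · have he1 := he hloss
    have h1 := (restrictedScherk_iff.1 hQ) _ _ hadm
    have hsub : rs X Y ⊆ T := by
      intro t ht
      rw [mem_rs] at ht
      obtain ⟨i, hi, j, hj, hij, rfl⟩ := ht
      exact hT i hi j hj hij
    have h2 := card_le_card hsub
    omega
  · have h1 := hS Q X Y 0 0 hadm.zA hadm.zB (by
      intro x hx y hy hxy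
      rw [add_zero] at hxy
      have : y = -x := by rw [eq_neg_iff_add_eq_zero, add_comm]; exact hxy
      exact hadm.uniq x hx (this ▸ hy))
    have hsub : (X + Y).erase 0 ⊆ T := by
      intro t ht
      rw [mem_erase, mem_add] at ht
      obtain ⟨ht0, i, hi, j, hj, rfl⟩ := ht
      by_cases hij : i = j
      · subst hij
        by_contra hcon
        exact hloss ⟨i, hi, hj, fun h => ht0 (by rw [h, add_zero]), hcon⟩
      · exact hT i hi j hj hij
    have h2 := card_le_card hsub
    have h3 : (0 : Q) ∈ X + Y := by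
      have := add_mem_add hadm.zA hadm.zB
      rwa [add_zero] at this
    rw [card_erase_of_mem h3] at h2
    omega

variable {R : Type u} [AddCommGroup R] {τ : R}

lemma mk_eq_iff (h2 : τ + τ = 0) {i j : R} :
    (QuotientAddGroup.mk i : R ⧸ AddSubgroup.zmultiples τ) = QuotientAddGroup.mk j ↔
      j = i ∨ j = i + τ := by
  rw [QuotientAddGroup.eq, AddSubgroup.mem_zmultiples_iff]
  constructor
  · rintro ⟨k, hk⟩
    rcases Int.even_or_odd k with ⟨m, hm⟩ | ⟨m, hm⟩
    · left
      have : k • τ = 0 := by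
        rw [hm, add_zsmul, ← zsmul_add, h2, zsmul_zero]
      rw [this] at hk
      have h3 : j = i + (-i + j) := by abel
      rw [h3, ← hk, add_zero]
    · right
      have : k • τ = τ := by
        rw [hm, add_zsmul, two_mul, add_zsmul, ← zsmul_add, h2, zsmul_zero, zero_add, one_zsmul]
      rw [this] at hk
      have h3 : j = i + (-i + j) := by abel
      rw [h3, ← hk]
  · rintro (rfl | rfl)
    · exact ⟨0, by simp⟩
    · exact ⟨1, by simp⟩

variable (τ) in
/-- Larger value on a class. -/
noncomputable def f1 (f : R → ℕ) (u : R ⧸ AddSubgroup.zmultiples τ) : ℕ :=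
  max (f u.out) (f (u.out + τ))

variable (τ) in
/-- Smaller value on a class. -/
noncomputable def f2 (f : R → ℕ) (u : R ⧸ AddSubgroup.zmultiples τ) : ℕ :=
  min (f u.out) (f (u.out + τ))

lemma mk_out (u : R ⧸ AddSubgroup.zmultiples τ) :
    (QuotientAddGroup.mk u.out : R ⧸ AddSubgroup.zmultiples τ) = u := Quotient.out_eq' u

lemma f1_mk (h2 : τ + τ = 0) (f : R → ℕ) (i : R) :
    f1 τ f (QuotientAddGroup.mk i) = max (f i) (f (i + τ)) := by
  unfold f1
  have h := mk_out (QuotientAddGroup.mk i : R ⧸ AddSubgroup.zmultiples τ)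
  rw [mk_eq_iff h2] at h
  have h3 : ∀ x : R, x + τ + τ = x := fun x => by rw [add_assoc, h2, add_zero]
  rcases h with h | h
  · rw [← h]
  · conv_rhs => rw [h, h3]
    exact max_comm _ _

lemma f2_mk (h2 : τ + τ = 0) (f : R → ℕ) (i : R) :
    f2 τ f (QuotientAddGroup.mk i) = min (f i) (f (i + τ)) := by
  unfold f2
  have h := mk_out (QuotientAddGroup.mk i : R ⧸ AddSubgroup.zmultiples τ)
  rw [mk_eq_iff h2] at h
  have h3 : ∀ x : R, x + τ + τ = x := fun x => by rw [add_assoc, h2, add_zero]
  rcases h with h | h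
  · rw [← h]
  · conv_rhs => rw [h, h3]
    exact min_comm _ _

/-- Choose the representative with the larger value. -/
lemma exists_rep (h2 : τ + τ = 0) (f : R → ℕ) (u : R ⧸ AddSubgroup.zmultiples τ) :
    ∃ i : R, QuotientAddGroup.mk i = u ∧ f1 τ f u = f i ∧ f2 τ f u = f (i + τ) := by
  obtain ⟨i, rfl⟩ := QuotientAddGroup.mk_surjective u
  rw [f1_mk h2, f2_mk h2]
  have h3 : ∀ x : R, x + τ + τ = x := fun x => by rw [add_assoc, h2, add_zero]
  rcases le_total (f i) (f (i + τ)) with h | h
  · refine ⟨i + τ, ?_, max_eq_right h, ?_⟩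
    · rw [mk_eq_iff h2]; right; rw [h3]
    · rw [h3]; exact min_eq_left h
  · exact ⟨i, rfl, max_eq_left h, min_eq_right h⟩

lemma f2_le (h2 : τ + τ = 0) (f : R → ℕ) {u : R ⧸ AddSubgroup.zmultiples τ} {i : R}
    (hi : QuotientAddGroup.mk i = u) : f2 τ f u ≤ f i := by
  subst hi
  rw [f2_mk h2]; exact min_le_left _ _

lemma le_f1 (h2 : τ + τ = 0) (f : R → ℕ) {u : R ⧸ AddSubgroup.zmultiples τ} {i : R}
    (hi : QuotientAddGroup.mk i = u) : f i ≤ f1 τ f u := by
  subst hi
  rw [f1_mk h2]; exact le_max_left _ _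

lemma f2_le' (h2 : τ + τ = 0) (f : R → ℕ) {u : R ⧸ AddSubgroup.zmultiples τ} {i : R}
    (hi : QuotientAddGroup.mk i = u) : f2 τ f u ≤ f (i + τ) := by
  subst hi
  rw [f2_mk h2]; exact min_le_right _ _

lemma le_f1' (h2 : τ + τ = 0) (f : R → ℕ) {u : R ⧸ AddSubgroup.zmultiples τ} {i : R}
    (hi : QuotientAddGroup.mk i = u) : f (i + τ) ≤ f1 τ f u := by
  subst hi
  rw [f1_mk h2]; exact le_max_right _ _

lemma sum_class [Fintype R] [DecidableEq R] [Fintype (R ⧸ AddSubgroup.zmultiples τ)]
    [DecidableEq (R ⧸ AddSubgroup.zmultiples τ)] (h0 : τ ≠ 0) (h2 : τ + τ = 0) (f : R → ℕ) :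
    ∑ i ∈ (univ.erase (0 : R)).erase τ, f i =
      ∑ u ∈ univ.erase (0 : R ⧸ AddSubgroup.zmultiples τ), (f1 τ f u + f2 τ f u) := by
  have h3 : ∀ x : R, x + τ + τ = x := fun x => by rw [add_assoc, h2, add_zero]
  rw [← Finset.sum_fiberwise_of_maps_to (s := (univ.erase (0 : R)).erase τ)
    (t := univ.erase (0 : R ⧸ AddSubgroup.zmultiples τ)) (g := fun i => QuotientAddGroup.mk i)]
  · refine Finset.sum_congr rfl fun u hu => ?_
    obtain ⟨i, hi, h1, h2'⟩ := exists_rep h2 f u
    have hne : i ≠ i + τ := by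
      intro h
      exact h0 (by simpa using h.symm)
    have hset : ((univ.erase (0 : R)).erase τ).filter
        (fun j => (QuotientAddGroup.mk j : R ⧸ AddSubgroup.zmultiples τ) = u) = {i, i + τ} := by
      ext j
      simp only [mem_filter, mem_erase, mem_univ, and_true, mem_insert, mem_singleton]
      have hu' : u ≠ 0 := by simpa using hu
      constructor
      · rintro ⟨-, hj⟩
        rw [← hi] at hj
        exact (mk_eq_iff h2).1 hj.symm
      · intro hj
        have hj' : (QuotientAddGroup.mk j : R ⧸ AddSubgroup.zmultiples τ) = u := by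
          rw [← hi]; exact ((mk_eq_iff h2).2 hj).symm
        refine ⟨⟨?_, ?_⟩, hj'⟩
        · rintro rfl
          apply hu'
          rw [← hj', ← QuotientAddGroup.mk_zero, mk_eq_iff h2]
          right; rw [h2]
        · rintro rfl
          exact hu' (by rw [← hj']; rfl)
    rw [hset, Finset.sum_pair hne, h1, h2']
  · intro i hi
    simp only [mem_erase, mem_univ, and_true] at hi ⊢
    intro h
    rw [← QuotientAddGroup.mk_zero, eq_comm, mk_eq_iff h2] at h
    rcases h with h | h
    · exact hi.2 h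
    · exact hi.1 (by rw [h, zero_add])

lemma le_f2_iff (h2 : τ + τ = 0) (f : R → ℕ) {u : R ⧸ AddSubgroup.zmultiples τ} {k : ℕ} :
    k ≤ f2 τ f u ↔ ∀ i : R, QuotientAddGroup.mk i = u → k ≤ f i := by
  constructor
  · intro h i hi
    exact h.trans (f2_le h2 f hi)
  · intro h
    obtain ⟨i, hi, -, h'⟩ := exists_rep h2 f u
    rw [h']
    apply h
    rw [← hi, eq_comm, mk_eq_iff h2]
    exact Or.inr rfl

lemma le_f1_iff (h2 : τ + τ = 0) (f : R → ℕ) {u : R ⧸ AddSubgroup.zmultiples τ} {k : ℕ} :
    k ≤ f1 τ f u ↔ ∃ i : R, QuotientAddGroup.mk i = u ∧ k ≤ f i := by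
  constructor
  · intro h
    obtain ⟨i, hi, h', -⟩ := exists_rep h2 f u
    exact ⟨i, hi, by omega⟩
  · rintro ⟨i, hi, h⟩
    exact h.trans (le_f1 h2 f hi)

end LvZ

open LvZ in
/-- (LvZ) from (SC). -/
theorem stmt_LvZ (hS : Stmt_Scherk.{u}) : Stmt_LvZ.{u} := by
  intro R _ _ _ τ hτ0 hτ2 hτu hQ P α β γ hβα hαP hβ0 hατ hβτ hγ0 hγτ hDP hPD hsum hdiag hH6
  classical
  have : Fintype (R ⧸ AddSubgroup.zmultiples τ) := Fintype.ofFinite _
  obtain ⟨a, ha⟩ : ∃ a, a = α 0 := ⟨_, rfl⟩
  obtain ⟨b, hb⟩ : ∃ b, b = β 0 := ⟨_, rfl⟩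
  obtain ⟨D, hD⟩ : ∃ D, D = a + b := ⟨_, rfl⟩
  have hβα0 := hβα 0
  have hαP0 := hαP 0
  rw [zero_add] at hαP0
  have hαP1 : ∀ i, α i ≤ P := fun i => by have := hαP i; omega
  have hβP1 : ∀ i, β i ≤ P := fun i => (hβα i).trans (hαP1 i)
  have hγ0' : γ 0 + 2 = D := by omega
  have hγτ' : γ τ + 1 = D := by omega
  have hbD : 2 ≤ b := by omega
  -- elements of a nonzero class
  have hcl : ∀ i : R, (QuotientAddGroup.mk i : R ⧸ AddSubgroup.zmultiples τ) ≠ 0 →
      i ≠ 0 ∧ i ≠ τ ∧ i ≠ -i := by
    intro i hi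
    have h1 : i ≠ 0 := fun h => hi (by rw [h]; rfl)
    have h2 : i ≠ τ := by
      intro h
      apply hi
      rw [h, ← QuotientAddGroup.mk_zero, mk_eq_iff hτ2]
      right; rw [hτ2]
    refine ⟨h1, h2, fun h => ?_⟩
    rw [eq_neg_iff_add_eq_zero] at h
    rcases hτu i h with h | h
    · exact h1 h
    · exact h2 h
  have hneg : ∀ i : R, (QuotientAddGroup.mk (-i) : R ⧸ AddSubgroup.zmultiples τ) =
      -QuotientAddGroup.mk i := fun i => rfl
  have hadd : ∀ i j : R, (QuotientAddGroup.mk (i + j) : R ⧸ AddSubgroup.zmultiples τ) =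
      QuotientAddGroup.mk i + QuotientAddGroup.mk j := fun i j => rfl
  have hmkτ : ∀ i : R, (QuotientAddGroup.mk (i + τ) : R ⧸ AddSubgroup.zmultiples τ) =
      QuotientAddGroup.mk i := by
    intro i
    rw [eq_comm, mk_eq_iff hτ2]
    exact Or.inr rfl
  have hzero : ∀ i : R, (QuotientAddGroup.mk i : R ⧸ AddSubgroup.zmultiples τ) = 0 →
      i = 0 ∨ i = τ := by
    intro i hi
    rw [← QuotientAddGroup.mk_zero, eq_comm, mk_eq_iff hτ2, zero_add] at hi
    exact hi
  have hα00 : ∀ i : R, (QuotientAddGroup.mk i : R ⧸ AddSubgroup.zmultiples τ) = 0 →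
      α i = a := by
    intro i hi
    rcases hzero i hi with h | h
    · rw [h, ha]
    · rw [h, ha, hατ]
  have hβ00 : ∀ i : R, (QuotientAddGroup.mk i : R ⧸ AddSubgroup.zmultiples τ) = 0 →
      β i = b := by
    intro i hi
    rcases hzero i hi with h | h
    · rw [h, hb]
    · rw [h, hb, hβτ]
  have hγ00 : ∀ i : R, (QuotientAddGroup.mk i : R ⧸ AddSubgroup.zmultiples τ) = 0 →
      γ i + 1 ≤ D := by
    intro i hi
    rcases hzero i hi with h | h
    · rw [h]; omega
    · rw [h]; omega
  have hi_ne : ∀ i : R, i ≠ i + τ := fun i h => hτ0 (by simpa using h.symm)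
  -- 0 is uniquely represented: the basic contradiction
  have hbad : ∀ i : R, (QuotientAddGroup.mk i : R ⧸ AddSubgroup.zmultiples τ) ≠ 0 →
      1 ≤ α i → 1 ≤ β (-i) → D ≤ α i + β (-i) → False := by
    intro i hi h1 h2 h3
    have := hsum i (-i) (hcl i hi).2.2 h1 h2
    rw [add_neg_cancel] at this
    omega
  -- cell A
  have cellA : ∀ k l s e : ℕ, 1 ≤ k → 1 ≤ l → k + l = D → s + 1 ≤ D → s + 1 ≤ a + l →
      s + 1 ≤ k + b →
      ((∃ u : R ⧸ AddSubgroup.zmultiples τ, u ≠ 0 ∧ k ≤ f1 τ α u ∧ l ≤ f2 τ β u ∧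
        f2 τ γ (u + u) < s) → 1 ≤ e) →
      lvl (f1 τ α) k + lvl (f2 τ β) l ≤ lvl (f2 τ γ) s + e := by
    intro k l s e hk hl hkl hs1 hs2 hs3 he
    have hadm : Adm (lset (f1 τ α) k) (lset (f2 τ β) l) := by
      refine ⟨mem_lset.2 (Or.inl rfl), mem_lset.2 (Or.inl rfl), ?_⟩
      intro u hu hv
      by_contra h0
      rw [mem_lset] at hu hv
      obtain ⟨i, rfl, hi⟩ := (le_f1_iff hτ2 α).1 (hu.resolve_left h0)
      have hj := (le_f2_iff hτ2 β).1 (hv.resolve_left (by simpa using h0)) (-i) (hneg i)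
      exact hbad i h0 (by omega) (by omega) (by omega)
    have hval : ∀ x ∈ lset (f1 τ α) k, ∀ y ∈ lset (f2 τ β) l, x ≠ y → s ≤ f2 τ γ (x + y) := by
      intro x hx y hy hxy
      rw [mem_lset] at hx hy
      have hx' : ∃ i : R, QuotientAddGroup.mk i = x ∧ (k ≤ α i ∨ (x = 0 ∧ α i = a)) := by
        rcases hx with hx | hx
        · exact ⟨0, hx.symm, Or.inr ⟨hx, ha.symm⟩⟩
        · obtain ⟨i, hi, hi'⟩ := (le_f1_iff hτ2 α).1 hx
          exact ⟨i, hi, Or.inl hi'⟩
      have hy' : ∀ j : R, QuotientAddGroup.mk j = y → (l ≤ β j ∨ (y = 0 ∧ β j = b)) := by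
        intro j hj
        rcases hy with hy | hy
        · exact Or.inr ⟨hy, hβ00 j (by rw [hj, hy])⟩
        · exact Or.inl ((le_f2_iff hτ2 β).1 hy j hj)
      obtain ⟨i, hi, hi'⟩ := hx'
      rw [le_f2_iff hτ2]
      intro t ht
      have hj : (QuotientAddGroup.mk (t - i) : R ⧸ AddSubgroup.zmultiples τ) = y := by
        have : (QuotientAddGroup.mk (t - i) : R ⧸ AddSubgroup.zmultiples τ) =
          QuotientAddGroup.mk t - QuotientAddGroup.mk i := rfl
        rw [this, ht, hi]; abel
      have hij : i ≠ t - i := by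
        intro h
        exact hxy (by rw [← hi, ← hj, ← h])
      have h1 := hy' _ hj
      have h2 := hsum i (t - i) hij
      rw [add_sub_cancel] at h2
      rcases hi' with hi' | ⟨hx0, hi'⟩
      · rcases h1 with h1 | ⟨-, h1⟩
        · have := h2 (by omega) (by omega); omega
        · have := h2 (by omega) (by omega); omega
      · rcases h1 with h1 | ⟨hy0, -⟩
        · have := h2 (by omega) (by omega); omega
        · exact absurd (hx0.trans hy0.symm) hxy
    have h1 := acell hS hQ (T := univ.filter fun t => t ≠ 0 ∧ s ≤ f2 τ γ t) hadm (by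
      intro x hx y hy hxy
      rw [mem_filter]
      refine ⟨mem_univ _, ?_, hval x hx y hy hxy⟩
      intro h0
      have hy' : y = -x := by rw [eq_neg_iff_add_eq_zero, add_comm]; exact h0
      have hx0 := hadm.uniq x hx (hy' ▸ hy)
      apply hxy
      rw [hy', hx0, neg_zero]) e (by
      rintro ⟨x, hx, hy, hx0, hT⟩
      apply he
      rw [mem_lset] at hx hy
      refine ⟨x, hx0, hx.resolve_left hx0, hy.resolve_left hx0, ?_⟩
      by_contra hcon
      apply hT
      rw [mem_filter]
      refine ⟨mem_univ _, ?_, by omega⟩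
      intro h0
      apply hx0
      refine hadm.uniq x (mem_lset.2 hx) ?_
      have : -x = x := by rw [neg_eq_iff_add_eq_zero]; exact h0
      rw [this]; exact mem_lset.2 hy)
    rw [card_lset, card_lset] at h1
    have h2 : (univ.filter fun t => t ≠ 0 ∧ s ≤ f2 τ γ t).card = lvl (f2 τ γ) s := rfl
    omega
  -- cell B
  have cellB : ∀ k l s : ℕ, 1 ≤ k → 1 ≤ l → k + l = D → s + 1 ≤ D → s + 1 ≤ a + l →
      s + 1 ≤ k + b →
      lvl (f2 τ α) k + lvl (f1 τ β) l ≤ lvl (f1 τ γ) s := by
    intro k l s hk hl hkl hs1 hs2 hs3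
    have hadm : Adm (lset (f2 τ α) k) (lset (f1 τ β) l) := by
      refine ⟨mem_lset.2 (Or.inl rfl), mem_lset.2 (Or.inl rfl), ?_⟩
      intro u hu hv
      by_contra h0
      rw [mem_lset] at hu hv
      obtain ⟨j, hj, hj'⟩ := (le_f1_iff hτ2 β).1 (hv.resolve_left (by simpa using h0))
      have hji : (QuotientAddGroup.mk (-j) : R ⧸ AddSubgroup.zmultiples τ) = u := by
        rw [hneg, hj, neg_neg]
      have hi := (le_f2_iff hτ2 α).1 (hu.resolve_left h0) (-j) hji
      exact hbad (-j) (by rw [hji]; exact h0) (by omega) (by rw [neg_neg]; omega)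
        (by rw [neg_neg]; omega)
    have hval : ∀ x ∈ lset (f2 τ α) k, ∀ y ∈ lset (f1 τ β) l, (x ≠ y ∨ x ≠ 0) →
        s ≤ f1 τ γ (x + y) := by
      intro x hx y hy hxy
      rw [mem_lset] at hx hy
      have hx' : ∀ i : R, QuotientAddGroup.mk i = x → (k ≤ α i ∨ (x = 0 ∧ α i = a)) := by
        intro i hi
        rcases hx with hx | hx
        · exact Or.inr ⟨hx, hα00 i (by rw [hi, hx])⟩
        · exact Or.inl ((le_f2_iff hτ2 α).1 hx i hi)
      have hy' : ∃ j : R, QuotientAddGroup.mk j = y ∧ (l ≤ β j ∨ (y = 0 ∧ β j = b)) := by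
        rcases hy with hy | hy
        · exact ⟨0, hy.symm, Or.inr ⟨hy, hb.symm⟩⟩
        · obtain ⟨i, hi, hi'⟩ := (le_f1_iff hτ2 β).1 hy
          exact ⟨i, hi, Or.inl hi'⟩
      obtain ⟨j, hj, hj'⟩ := hy'
      obtain ⟨i, hi, hij⟩ : ∃ i : R, QuotientAddGroup.mk i = x ∧ i ≠ j := by
        obtain ⟨i, hi⟩ := QuotientAddGroup.mk_surjective x
        by_cases h : i = j
        · exact ⟨i + τ, by rw [hmkτ]; exact hi, fun h' => hi_ne i (by rw [h', h])⟩
        · exact ⟨i, hi, h⟩
      have h1 := hx' i hi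
      have h2 := hsum i j hij
      rw [le_f1_iff hτ2]
      refine ⟨i + j, by rw [hadd, hi, hj], ?_⟩
      rcases h1 with h1 | ⟨hx0, h1⟩
      · rcases hj' with hj' | ⟨-, hj'⟩
        · have := h2 (by omega) (by omega); omega
        · have := h2 (by omega) (by omega); omega
      · rcases hj' with hj' | ⟨hy0, hj'⟩
        · have := h2 (by omega) (by omega); omega
        · rcases hxy with hxy | hxy
          · exact absurd (hx0.trans hy0.symm) hxy
          · exact absurd hx0 hxy
    have hsum0 : ∀ x ∈ lset (f2 τ α) k, ∀ y ∈ lset (f1 τ β) l, (x ≠ y ∨ x ≠ 0) → x + y ≠ 0 := by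
      intro x hx y hy hxy h0
      have hy' : y = -x := by rw [eq_neg_iff_add_eq_zero, add_comm]; exact h0
      have hx0 := hadm.uniq x hx (hy' ▸ hy)
      rcases hxy with hxy | hxy
      · apply hxy
        rw [hy', hx0, neg_zero]
      · exact hxy hx0
    have h1 := acell hS hQ (T := univ.filter fun t => t ≠ 0 ∧ s ≤ f1 τ γ t) hadm (by
      intro x hx y hy hxy
      rw [mem_filter]
      exact ⟨mem_univ _, hsum0 x hx y hy (Or.inl hxy), hval x hx y hy (Or.inl hxy)⟩) 0 (by
      rintro ⟨x, hx, hy, hx0, hT⟩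
      exfalso
      apply hT
      rw [mem_filter]
      exact ⟨mem_univ _, hsum0 x hx x hy (Or.inr hx0), hval x hx x hy (Or.inr hx0)⟩)
    rw [card_lset, card_lset] at h1
    have h2 : (univ.filter fun t => t ≠ 0 ∧ s ≤ f1 τ γ t).card = lvl (f1 τ γ) s := rfl
    omega
  -- cell C, above D
  have cellC : ∀ s : ℕ, D < s → s ≤ P → lvl (f1 τ α) s + lvl (f1 τ β) s ≤ lvl (f1 τ γ) s := by
    intro s hs hsP
    have hrepA : ∀ x ∈ lset (f1 τ α) s, ∃ i : R, QuotientAddGroup.mk i = x ∧
        (s ≤ α i ∨ (x = 0 ∧ α i = a)) := by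
      intro x hx
      rw [mem_lset] at hx
      rcases hx with hx | hx
      · exact ⟨0, hx.symm, Or.inr ⟨hx, ha.symm⟩⟩
      · obtain ⟨i, hi, hi'⟩ := (le_f1_iff hτ2 α).1 hx
        exact ⟨i, hi, Or.inl hi'⟩
    have hrepB : ∀ x ∈ lset (f1 τ β) s, ∃ i : R, QuotientAddGroup.mk i = x ∧
        (s ≤ β i ∨ (x = 0 ∧ β i = b)) := by
      intro x hx
      rw [mem_lset] at hx
      rcases hx with hx | hx
      · exact ⟨0, hx.symm, Or.inr ⟨hx, hb.symm⟩⟩
      · obtain ⟨i, hi, hi'⟩ := (le_f1_iff hτ2 β).1 hx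
        exact ⟨i, hi, Or.inl hi'⟩
    have hval : ∀ x ∈ lset (f1 τ α) s, ∀ y ∈ lset (f1 τ β) s, (x ≠ y ∨ x ≠ 0) →
        s ≤ f1 τ γ (x + y) := by
      intro x hx y hy hxy
      obtain ⟨i, hi, hi'⟩ := hrepA x hx
      obtain ⟨j, hj, hj'⟩ := hrepB y hy
      rw [le_f1_iff hτ2]
      refine ⟨i + j, by rw [hadd, hi, hj], ?_⟩
      by_cases hij : i = j
      · subst hij
        have hxy' : x = y := by rw [← hi, ← hj]
        have hx0 : x ≠ 0 := by
          rcases hxy with h | h
          · exact absurd hxy' h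
          · exact h
        have hi1 := hi'.resolve_right (fun h => hx0 h.1)
        have hj1 := hj'.resolve_right (fun h => hx0 (hxy'.trans h.1))
        have hc := hcl i (by rw [hi]; exact hx0)
        have := hdiag i hc.1 hc.2.1 (by omega) (by omega)
        omega
      · have h2 := hsum i j hij
        rcases hi' with h1 | ⟨hx0, h1⟩
        · rcases hj' with hj' | ⟨-, hj'⟩
          · have := h2 (by omega) (by omega); omega
          · have := h2 (by omega) (by omega); omega
        · rcases hj' with hj' | ⟨hy0, hj'⟩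
          · have := h2 (by omega) (by omega); omega
          · rcases hxy with hxy | hxy
            · exact absurd (hx0.trans hy0.symm) hxy
            · exact absurd hx0 hxy
    have hadm : Adm (lset (f1 τ α) s) (lset (f1 τ β) s) := by
      refine ⟨mem_lset.2 (Or.inl rfl), mem_lset.2 (Or.inl rfl), ?_⟩
      intro u hu hv
      by_contra h0
      have h1 := hval u hu (-u) hv (Or.inr h0)
      rw [add_neg_cancel, le_f1_iff hτ2] at h1
      obtain ⟨i, hi, hi'⟩ := h1
      have := hγ00 i hi
      omega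
    have hsum0 : ∀ x ∈ lset (f1 τ α) s, ∀ y ∈ lset (f1 τ β) s, (x ≠ y ∨ x ≠ 0) → x + y ≠ 0 := by
      intro x hx y hy hxy h0
      have hy' : y = -x := by rw [eq_neg_iff_add_eq_zero, add_comm]; exact h0
      have hx0 := hadm.uniq x hx (hy' ▸ hy)
      rcases hxy with hxy | hxy
      · apply hxy
        rw [hy', hx0, neg_zero]
      · exact hxy hx0
    have h1 := acell hS hQ (T := univ.filter fun t => t ≠ 0 ∧ s ≤ f1 τ γ t) hadm (by
      intro x hx y hy hxy
      rw [mem_filter]
      exact ⟨mem_univ _, hsum0 x hx y hy (Or.inl hxy), hval x hx y hy (Or.inl hxy)⟩) 0 (by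
      rintro ⟨x, hx, hy, hx0, hT⟩
      exfalso
      apply hT
      rw [mem_filter]
      exact ⟨mem_univ _, hsum0 x hx x hy (Or.inr hx0), hval x hx x hy (Or.inr hx0)⟩)
    rw [card_lset, card_lset] at h1
    have h2 : (univ.filter fun t => t ≠ 0 ∧ s ≤ f1 τ γ t).card = lvl (f1 τ γ) s := rfl
    omega
  -- the cell at level D
  set XA : Finset (R ⧸ AddSubgroup.zmultiples τ) :=
    univ.filter fun u => u ≠ 0 ∧ (a ≤ f2 τ α u ∨ D ≤ f1 τ α u) with hXA
  set YB : Finset (R ⧸ AddSubgroup.zmultiples τ) :=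
    univ.filter fun u => u ≠ 0 ∧ (b ≤ f2 τ β u ∨ D ≤ f1 τ β u) with hYB
  set GA : Finset (R ⧸ AddSubgroup.zmultiples τ) :=
    univ.filter fun u => u ≠ 0 ∧ a ≤ f2 τ α u ∧ ¬ D ≤ f1 τ α u with hGA
  set GB : Finset (R ⧸ AddSubgroup.zmultiples τ) :=
    univ.filter fun u => u ≠ 0 ∧ b ≤ f2 τ β u ∧ ¬ D ≤ f1 τ β u with hGB
  have hXAc : XA.card = lvl (f1 τ α) D + GA.card := by
    unfold lvl
    rw [← card_union_of_disjoint]
    · congr 1
      ext u
      simp only [hXA, hGA, mem_filter, mem_univ, true_and, mem_union]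
      tauto
    · rw [disjoint_left]
      intro u hu hu'
      simp only [hGA, mem_filter, mem_univ, true_and] at hu hu'
      exact hu'.2.2 hu.2
  have hYBc : YB.card = lvl (f1 τ β) D + GB.card := by
    unfold lvl
    rw [← card_union_of_disjoint]
    · congr 1
      ext u
      simp only [hYB, hGB, mem_filter, mem_univ, true_and, mem_union]
      tauto
    · rw [disjoint_left]
      intro u hu hu'
      simp only [hGB, mem_filter, mem_univ, true_and] at hu hu'
      exact hu'.2.2 hu.2
  have cellD : ∀ e : ℕ, ((∃ u, u ∈ GA ∧ u ∈ GB) → 1 ≤ e) →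
      XA.card + YB.card ≤ lvl (f1 τ γ) D + e := by
    intro e he
    -- two types of elements
    have hrepA : ∀ x ∈ insert 0 XA, (∀ i : R, QuotientAddGroup.mk i = x → a ≤ α i) ∨
        (x ≠ 0 ∧ ∃ i : R, QuotientAddGroup.mk i = x ∧ D ≤ α i) := by
      intro x hx
      rw [mem_insert] at hx
      rcases hx with hx | hx
      · left
        intro i hi
        rw [hα00 i (by rw [hi, hx])]
      · simp only [hXA, mem_filter, mem_univ, true_and] at hx
        rcases hx with ⟨hx0, hx | hx⟩
        · left; exact (le_f2_iff hτ2 α).1 hx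
        · right; exact ⟨hx0, (le_f1_iff hτ2 α).1 hx⟩
    have hrepB : ∀ x ∈ insert 0 YB, (∀ i : R, QuotientAddGroup.mk i = x → b ≤ β i) ∨
        (x ≠ 0 ∧ ∃ i : R, QuotientAddGroup.mk i = x ∧ D ≤ β i) := by
      intro x hx
      rw [mem_insert] at hx
      rcases hx with hx | hx
      · left
        intro i hi
        rw [hβ00 i (by rw [hi, hx])]
      · simp only [hYB, mem_filter, mem_univ, true_and] at hx
        rcases hx with ⟨hx0, hx | hx⟩
        · left; exact (le_f2_iff hτ2 β).1 hx
        · right; exact ⟨hx0, (le_f1_iff hτ2 β).1 hx⟩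
    -- values, apart from exceptional diagonal
    have hval : ∀ x ∈ insert 0 XA, ∀ y ∈ insert 0 YB, (x ≠ y ∨ x ≠ 0) →
        D ≤ f1 τ γ (x + y) ∨ (x = y ∧ x ∈ GA ∧ x ∈ GB) := by
      intro x hx y hy hxy
      rcases hrepA x hx with h1 | ⟨hx0, i, hi, hi'⟩
      · rcases hrepB y hy with h2 | ⟨hy0, j, hj, hj'⟩
        · by_cases hne : x = y
          · subst hne
            have hx0 : x ≠ 0 := by
              rcases hxy with h | h
              · exact absurd rfl h
              · exact h
            by_cases hc : D ≤ f1 τ γ (x + x)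
            · exact Or.inl hc
            · right
              obtain ⟨i, hi⟩ := QuotientAddGroup.mk_surjective x
              have e1 := h1 i hi
              have e2 := h1 (i + τ) (by rw [hmkτ]; exact hi)
              have e3 := h2 i hi
              have e4 := h2 (i + τ) (by rw [hmkτ]; exact hi)
              have e5 := hsum i (i + τ) (hi_ne i) (by omega) (by omega)
              have e6 := hsum (i + τ) i (hi_ne i).symm (by omega) (by omega)
              have e7 := le_f1 hτ2 γ (i := i + (i + τ)) (u := x + x)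
                (by rw [hadd, hmkτ, hi])
              have e8 : i + τ + i = i + (i + τ) := by abel
              rw [e8] at e6
              have e9 : f1 τ α x = a := by
                rw [← hi, f1_mk hτ2]
                omega
              have e10 : f2 τ α x = a := by
                rw [← hi, f2_mk hτ2]
                omega
              have e11 : f1 τ β x = b := by
                rw [← hi, f1_mk hτ2]
                omega
              have e12 : f2 τ β x = b := by
                rw [← hi, f2_mk hτ2]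
                omega
              refine ⟨rfl, ?_, ?_⟩
              · simp only [hGA, mem_filter, mem_univ, true_and]
                exact ⟨hx0, by omega, by omega⟩
              · simp only [hGB, mem_filter, mem_univ, true_and]
                exact ⟨hx0, by omega, by omega⟩
          · left
            obtain ⟨i, hi⟩ := QuotientAddGroup.mk_surjective x
            obtain ⟨j, hj⟩ := QuotientAddGroup.mk_surjective y
            have e1 := hH6 i j (fun h => hne (by rw [← hi, ← hj, h]))
              (fun h => hne (by rw [← hi, ← hj, h, hmkτ])) (by rw [← ha]; exact h1 i hi)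
              (by rw [← ha]; exact h1 _ (by rw [hmkτ]; exact hi)) (by rw [← hb]; exact h2 j hj)
              (by rw [← hb]; exact h2 _ (by rw [hmkτ]; exact hj))
            have e2 := le_f1 hτ2 γ (i := i + j) (u := x + y) (by rw [hadd, hi, hj])
            have e3 := le_f1' hτ2 γ (i := i + j) (u := x + y) (by rw [hadd, hi, hj])
            rcases e1 with e1 | e1
            · omega
            · omega
        · left
          obtain ⟨i, hi, hij⟩ : ∃ i : R, QuotientAddGroup.mk i = x ∧ i ≠ j := by
            obtain ⟨i, hi⟩ := QuotientAddGroup.mk_surjective x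
            by_cases h : i = j
            · exact ⟨i + τ, by rw [hmkτ]; exact hi, fun h' => hi_ne i (by rw [h', h])⟩
            · exact ⟨i, hi, h⟩
          have e1 := h1 i hi
          have e2 := hsum i j hij (by omega) (by omega)
          have e3 := le_f1 hτ2 γ (i := i + j) (u := x + y) (by rw [hadd, hi, hj])
          omega
      · left
        rcases hrepB y hy with h2 | ⟨hy0, j, hj, hj'⟩
        · obtain ⟨j, hj, hij⟩ : ∃ j : R, QuotientAddGroup.mk j = y ∧ i ≠ j := by
            obtain ⟨j, hj⟩ := QuotientAddGroup.mk_surjective y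
            by_cases h : i = j
            · exact ⟨j + τ, by rw [hmkτ]; exact hj, fun h' => hi_ne j (by rw [← h', h])⟩
            · exact ⟨j, hj, h⟩
          have e1 := h2 j hj
          have e2 := hsum i j hij (by omega) (by omega)
          have e3 := le_f1 hτ2 γ (i := i + j) (u := x + y) (by rw [hadd, hi, hj])
          omega
        · have e3 := le_f1 hτ2 γ (i := i + j) (u := x + y) (by rw [hadd, hi, hj])
          by_cases hij : i = j
          · subst hij
            have hc := hcl i (by rw [hi]; exact hx0)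
            have := hdiag i hc.1 hc.2.1 (by omega) (by omega)
            omega
          · have e2 := hsum i j hij (by omega) (by omega)
            omega
    have hadm : Adm (insert 0 XA) (insert 0 YB) := by
      refine ⟨mem_insert_self _ _, mem_insert_self _ _, ?_⟩
      intro u hu hv
      by_contra h0
      rcases hrepA u hu with h1 | ⟨hx0, i, hi, hi'⟩
      · rcases hrepB (-u) hv with h2 | ⟨hy0, j, hj, hj'⟩
        · obtain ⟨i, hi⟩ := QuotientAddGroup.mk_surjective u
          have e1 := h1 i hi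
          have e2 := h2 (-i) (by rw [hneg, hi])
          exact hbad i (by rw [hi]; exact h0) (by omega) (by omega) (by omega)
        · have hji : (QuotientAddGroup.mk (-j) : R ⧸ AddSubgroup.zmultiples τ) = u := by
            rw [hneg, hj, neg_neg]
          have e1 := h1 (-j) hji
          exact hbad (-j) (by rw [hji]; exact h0) (by omega) (by rw [neg_neg]; omega)
            (by rw [neg_neg]; omega)
      · rcases hrepB (-u) hv with h2 | ⟨hy0, j, hj, hj'⟩
        · have e2 := h2 (-i) (by rw [hneg, hi])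
          exact hbad i (by rw [hi]; exact h0) (by omega) (by omega) (by omega)
        · have e4 : (QuotientAddGroup.mk (i + j) : R ⧸ AddSubgroup.zmultiples τ) = 0 := by
            rw [hadd, hi, hj, add_neg_cancel]
          have e5 := hγ00 _ e4
          by_cases hij : i = j
          · subst hij
            have hc := hcl i (by rw [hi]; exact hx0)
            have := hdiag i hc.1 hc.2.1 (by omega) (by omega)
            omega
          · have e2 := hsum i j hij (by omega) (by omega)
            omega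
    have hsum0 : ∀ x ∈ insert 0 XA, ∀ y ∈ insert 0 YB, (x ≠ y ∨ x ≠ 0) → x + y ≠ 0 := by
      intro x hx y hy hxy h0
      have hy' : y = -x := by rw [eq_neg_iff_add_eq_zero, add_comm]; exact h0
      have hx0 := hadm.uniq x hx (hy' ▸ hy)
      rcases hxy with hxy | hxy
      · apply hxy
        rw [hy', hx0, neg_zero]
      · exact hxy hx0
    have h1 := acell hS hQ (T := univ.filter fun t => t ≠ 0 ∧ D ≤ f1 τ γ t) hadm (by
      intro x hx y hy hxy
      rw [mem_filter]
      exact ⟨mem_univ _, hsum0 x hx y hy (Or.inl hxy),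
        (hval x hx y hy (Or.inl hxy)).resolve_right (fun h => hxy h.1)⟩) e (by
      rintro ⟨x, hx, hy, hx0, hT⟩
      apply he
      rcases hval x hx x hy (Or.inr hx0) with h | h
      · exfalso
        apply hT
        rw [mem_filter]
        exact ⟨mem_univ _, hsum0 x hx x hy (Or.inr hx0), h⟩
      · exact ⟨x, h.2.1, h.2.2⟩)
    rw [card_insert_of_notMem (by simp [hXA]), card_insert_of_notMem (by simp [hYB])] at h1
    have h2 : (univ.filter fun t => t ≠ 0 ∧ D ≤ f1 τ γ t).card = lvl (f1 τ γ) D := rfl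
    omega
  -- the loss at level (D-1, 2)
  obtain ⟨x, hx⟩ : ∃ x : ℕ, x = if (∃ u : R ⧸ AddSubgroup.zmultiples τ, u ≠ 0 ∧ a ≤ f1 τ α u ∧
    b ≤ f2 τ β u ∧ f2 τ γ (u + u) < D - 1) then 1 else 0 := ⟨_, rfl⟩
  have hx1 : x ≤ 1 := by rw [hx]; split_ifs <;> omega
  have hxG : 1 ≤ x → 1 ≤ GB.card := by
    intro h1
    have hex : ∃ u : R ⧸ AddSubgroup.zmultiples τ, u ≠ 0 ∧ a ≤ f1 τ α u ∧
        b ≤ f2 τ β u ∧ f2 τ γ (u + u) < D - 1 := by
      by_contra hcon
      rw [if_neg hcon] at hx
      omega
    obtain ⟨u, hu0, hu1, hu2, hu3⟩ := hex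
    apply card_pos.2
    refine ⟨u, ?_⟩
    simp only [hGB, mem_filter, mem_univ, true_and]
    refine ⟨hu0, hu2, ?_⟩
    obtain ⟨i, hi, hi1, hi2⟩ := exists_rep hτ2 α u
    have e1 := (le_f2_iff hτ2 β).1 hu2 i hi
    have e2 := (le_f2_iff hτ2 β).1 hu2 (i + τ) (by rw [hmkτ]; exact hi)
    have hc := hcl i (by rw [hi]; exact hu0)
    have e3 := hdiag i hc.1 hc.2.1 (by omega) (by omega)
    have e4 := hsum i (i + τ) (hi_ne i) (by omega) (by omega)
    have e5 : f2 τ γ (u + u) = min (γ (i + i)) (γ (i + (i + τ))) := by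
      rw [← hi, ← hadd, f2_mk hτ2, add_assoc]
    have e6 := hβα i
    have e7 := hβα (i + τ)
    have e8 : f1 τ β u = max (β i) (β (i + τ)) := by rw [← hi, f1_mk hτ2]
    have e9 : f2 τ α u ≤ f1 τ α u := by
      have h5 := f2_le hτ2 α hi
      omega
    omega
  -- level D
  have hlevD : lvl (f1 τ α) D + lvl (f1 τ β) D + x ≤ lvl (f1 τ γ) D := by
    by_cases hex : ∃ u, u ∈ GA ∧ u ∈ GB
    · have h1 := cellD 1 (fun _ => le_rfl)
      obtain ⟨u, hu1, hu2⟩ := hex
      have h2 : 1 ≤ GA.card := card_pos.2 ⟨u, hu1⟩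
      have h3 : 1 ≤ GB.card := card_pos.2 ⟨u, hu2⟩
      omega
    · have h1 := cellD 0 (fun h => absurd h hex)
      rcases Nat.eq_zero_or_pos x with h0 | hpos
      · omega
      · have := hxG hpos
        omega
  -- no second levels above D
  have hlev2A : ∀ s, D ≤ s → lvl (f2 τ α) s = 0 := by
    intro s hs
    unfold lvl
    rw [card_eq_zero, filter_eq_empty_iff]
    rintro u - ⟨-, hu⟩
    obtain ⟨i, hi⟩ := QuotientAddGroup.mk_surjective u
    have e1 := (le_f2_iff hτ2 α).1 hu i hi
    have e2 := (le_f2_iff hτ2 α).1 hu (i + τ) (by rw [hmkτ]; exact hi)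
    have := hαP i
    omega
  have hlev2B : ∀ s, D ≤ s → lvl (f2 τ β) s = 0 := by
    intro s hs
    unfold lvl
    rw [card_eq_zero, filter_eq_empty_iff]
    rintro u - ⟨-, hu⟩
    obtain ⟨i, hi⟩ := QuotientAddGroup.mk_surjective u
    have e1 := (le_f2_iff hτ2 β).1 hu i hi
    have e2 := (le_f2_iff hτ2 β).1 hu (i + τ) (by rw [hmkτ]; exact hi)
    have e3 := hβα i
    have e4 := hβα (i + τ)
    have := hαP i
    omega
  have hkey : ∀ s ∈ Icc 1 P,
      ((lvl (f1 τ α) (kk a D s) + lvl (f2 τ β) (ll a D s)) +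
        (lvl (f2 τ α) (kk a D s) + lvl (f1 τ β) (ll a D s))) + (if s = D then x else 0) ≤
      (lvl (f1 τ γ) s + lvl (f2 τ γ) s) + (if s = D - 1 then x else 0) := by
    intro s hs
    rw [mem_Icc] at hs
    rcases lt_or_ge s a with h1 | h1
    · have hk : kk a D s = s := by unfold kk; rw [if_pos h1]
      have hl : ll a D s = D - s := by unfold ll; rw [if_pos h1]
      rw [hk, hl, if_neg (by omega), if_neg (by omega)]
      have e1 := cellA s (D - s) s 0 (by omega) (by omega) (by omega) (by omega) (by omega)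
        (by omega) (by
          rintro ⟨u, hu0, hu1, hu2, hu3⟩
          exfalso
          obtain ⟨i, hi, hi1, hi2⟩ := exists_rep hτ2 α u
          have e1 := (le_f2_iff hτ2 β).1 hu2 i hi
          have e2 := (le_f2_iff hτ2 β).1 hu2 (i + τ) (by rw [hmkτ]; exact hi)
          have hc := hcl i (by rw [hi]; exact hu0)
          have e3 := hdiag i hc.1 hc.2.1 (by omega) (by omega)
          have e4 := hsum i (i + τ) (hi_ne i) (by omega) (by omega)
          have e5 : f2 τ γ (u + u) = min (γ (i + i)) (γ (i + (i + τ))) := by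
            rw [← hi, ← hadd, f2_mk hτ2, add_assoc]
          omega)
      have e2 := cellB s (D - s) s (by omega) (by omega) (by omega) (by omega) (by omega)
        (by omega)
      omega
    · rcases lt_or_ge s D with h3 | h3
      · have hk : kk a D s = D - 1 + a - s := by
          unfold kk; rw [if_neg (by omega), if_pos h3]
        have hl : ll a D s = s + 1 - a := by
          unfold ll; rw [if_neg (by omega), if_pos h3]
        rw [hk, hl, if_neg (by omega)]
        have e2 := cellB (D - 1 + a - s) (s + 1 - a) s (by omega) (by omega) (by omega)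
          (by omega) (by omega) (by omega)
        have e1 := cellA (D - 1 + a - s) (s + 1 - a) s (if s = D - 1 then x else 0) (by omega)
          (by omega) (by omega) (by omega) (by omega) (by omega) (by
            rintro ⟨u, hu0, hu1, hu2, hu3⟩
            by_cases hsD : s = D - 1
            · rw [if_pos hsD, hx, if_pos]
              refine ⟨u, hu0, ?_, ?_, ?_⟩
              · have : D - 1 + a - s = a := by omega
                rw [this] at hu1; exact hu1
              · have : s + 1 - a = b := by omega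
                rw [this] at hu2; exact hu2
              · rw [hsD] at hu3; exact hu3
            · exfalso
              obtain ⟨i, hi, hi1, hi2⟩ := exists_rep hτ2 α u
              have e1 := (le_f2_iff hτ2 β).1 hu2 i hi
              have e2 := (le_f2_iff hτ2 β).1 hu2 (i + τ) (by rw [hmkτ]; exact hi)
              have hc := hcl i (by rw [hi]; exact hu0)
              have e3 := hdiag i hc.1 hc.2.1 (by omega) (by omega)
              have e4 := hsum i (i + τ) (hi_ne i) (by omega) (by omega)
              have e5 : f2 τ γ (u + u) = min (γ (i + i)) (γ (i + (i + τ))) := by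
                rw [← hi, ← hadd, f2_mk hτ2, add_assoc]
              omega)
        omega
      · have hk : kk a D s = s := by
          unfold kk; rw [if_neg (by omega), if_neg (by omega)]
        have hl : ll a D s = s := by
          unfold ll; rw [if_neg (by omega), if_neg (by omega)]
        rw [hk, hl, hlev2A s h3, hlev2B s h3, if_neg (by omega : ¬ s = D - 1)]
        rcases Nat.eq_or_lt_of_le h3 with h4 | h4
        · rw [if_pos h4.symm, ← h4]
          omega
        · rw [if_neg (by omega)]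
          have := cellC s h4 hs.2
          omega
  have h3 := Finset.sum_le_sum hkey
  simp only [sum_add_distrib, Finset.sum_ite_eq'] at h3
  rw [sum_kk (P := P) (a := a) (D := D) (by omega) (by omega) (by omega)
      (fun s => lvl (f1 τ α) s),
    sum_kk (P := P) (a := a) (D := D) (by omega) (by omega) (by omega)
      (fun s => lvl (f2 τ α) s),
    sum_ll (P := P) (a := a) (D := D) (by omega) (by omega) (by omega)
      (fun s => lvl (f1 τ β) s),
    sum_ll (P := P) (a := a) (D := D) (by omega) (by omega) (by omega)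
      (fun s => lvl (f2 τ β) s),
    sum_lvl_eq (f := f1 τ α) (fun u => max_le (hαP1 _) (hαP1 _)),
    sum_lvl_eq (f := f2 τ α) (fun u => (min_le_left _ _).trans (hαP1 _)),
    sum_lvl_eq (f := f1 τ β) (fun u => max_le (hβP1 _) (hβP1 _)),
    sum_lvl_eq (f := f2 τ β) (fun u => (min_le_left _ _).trans (hβP1 _)),
    if_pos (by rw [mem_Icc]; omega), if_pos (by rw [mem_Icc]; omega)] at h3
  have h4 := sum_lvl_le (f1 τ γ) P
  have h5 := sum_lvl_le (f2 τ γ) P
  rw [sum_add_distrib, sum_class hτ0 hτ2, sum_class hτ0 hτ2, sum_class hτ0 hτ2,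
    sum_add_distrib, sum_add_distrib, sum_add_distrib]
  omega

end Pool.Agent.Work.MP_59976d_co
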